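import Pool.Agent.H93.SC.Targets

/-! # MP_f2954d_ag, module V6: places of curves -/

namespace Pool.Agent.H36.SC

open _root_.SC

section

variable {k K : Type} [Field k] [Field K] [Algebra k K]

instance (v : DV k K) : IsScalarTower k v.vs K := IsScalarTower.of_algebraMap_eq fun _ => rfl

lemma ord_nonneg_of_isIntegral (v : DV k K) {x : K} (hx : IsIntegral k x) : 0 ≤ v.ord x := by
  have h1 : IsIntegral v.vs x := hx.tower_top
  obtain ⟨y, hy⟩ := IsIntegrallyClosed.isIntegral_iff.1 h1
  rw [← hy]
  exact y.2

lemma ord_eq_zero_of_isAlgebraic (v : DV k K) {x : K} (hx : IsAlgebraic k x) : v.ord x = 0 := by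
  have h1 := ord_nonneg_of_isIntegral v hx.isIntegral
  have h2 := ord_nonneg_of_isIntegral v hx.inv.isIntegral
  rw [v.ord_inv] at h2
  omega

lemma fin_of_transc [Algebra.EssFiniteType k K] (htr : Algebra.trdeg k K = 1) {t : K}
    (ht : Transcendental k t) : FiniteDimensional (IntermediateField.adjoin k {t}) K := by
  have h1 : AlgebraicIndependent k (fun _ : Unit => t) := by
    rw [algebraicIndependent_unique_type_iff]
    exact ht
  have h2 : IsTranscendenceBasis k (fun _ : Unit => t) :=
    h1.isTranscendenceBasis_of_trdeg_le_of_finite (by rw [htr]; simp)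
  have h3 := h2.isAlgebraic_field
  rw [Set.range_const] at h3
  have h4 : Algebra.EssFiniteType (IntermediateField.adjoin k {t}) K :=
    Algebra.EssFiniteType.of_comp k (IntermediateField.adjoin k {t}) K
  exact Algebra.finite_of_essFiniteType_of_isAlgebraic

lemma adjoin_inv (t : K) : IntermediateField.adjoin k {t⁻¹} = IntermediateField.adjoin k {t} := by
  apply le_antisymm
  · rw [IntermediateField.adjoin_simple_le_iff]
    exact inv_mem (IntermediateField.mem_adjoin_simple_self k t)
  · rw [IntermediateField.adjoin_simple_le_iff]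
    have := inv_mem (IntermediateField.mem_adjoin_simple_self k t⁻¹)
    rwa [inv_inv] at this

lemma unif_spec (v : DV k K) : v.unif ≠ 0 ∧ v.ord v.unif = 1 := v.ord_surj.choose_spec

end

theorem v6a (h5 : T_V5) : T_V6a := by
  intro k K _ _ _ _ _ htr v
  have h1 : v.ord (v.unif)⁻¹ = -1 := by rw [v.ord_inv, (unif_spec v).2]
  have ht : Transcendental k (v.unif)⁻¹ := by
    intro h
    rw [ord_eq_zero_of_isAlgebraic v h] at h1
    omega
  exact (h5 k K _ ht (fin_of_transc htr ht)).2.1 v (by omega)

theorem v6b (h5 : T_V5) : T_V6b := by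
  intro k K _ _ _ _ _ htr f
  by_cases hf : IsAlgebraic k f
  · have : {v : DV k K | v.ord f ≠ 0} = ∅ := by
      ext v
      simp [ord_eq_zero_of_isAlgebraic v hf]
    rw [this]
    exact Set.finite_empty
  · have ht : Transcendental k f := hf
    have ht' : Transcendental k f⁻¹ := fun h => hf (by simpa using h.inv)
    have h1 := (h5 k K _ ht (fin_of_transc htr ht)).1
    have h2 := (h5 k K _ ht' (fin_of_transc htr ht')).1
    refine (h1.union h2).subset fun v hv => ?_
    simp only [Set.mem_union, Set.mem_ofPred_eq] at hv ⊢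
    rw [v.ord_inv]
    omega

theorem v6c (h5 : T_V5) : T_V6c := by
  intro k K _ _ _ _ _ htr f
  by_cases hf : IsAlgebraic k f
  · simp [ord_eq_zero_of_isAlgebraic _ hf]
  · have ht : Transcendental k f := hf
    have ht' : Transcendental k f⁻¹ := fun h => hf (by simpa using h.inv)
    obtain ⟨f1, -, e1⟩ := h5 k K _ ht (fin_of_transc htr ht)
    obtain ⟨f2, -, e2⟩ := h5 k K _ ht' (fin_of_transc htr ht')
    have e3 : Module.finrank (IntermediateField.adjoin k {f⁻¹}) K =
        Module.finrank (IntermediateField.adjoin k {f}) K :=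
      congrArg (fun E : IntermediateField k K => Module.finrank E K) (adjoin_inv f)
    rw [e3, ← e1] at e2
    have e4 : ∀ v : DV k K, (v.deg : ℤ) * v.ord f =
        (v.deg : ℤ) * max 0 (- v.ord f⁻¹) - (v.deg : ℤ) * max 0 (- v.ord f) := by
      intro v
      rw [v.ord_inv, neg_neg, ← mul_sub]
      congr 1
      omega
    simp only [e4]
    rw [finsum_sub_distrib, e2, sub_self]
    · refine f2.subset fun v hv => ?_
      simp only [Function.mem_support, ne_eq, mul_eq_zero, not_or, Set.mem_ofPred_eq] at hv ⊢
      have := hv.2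
      omega
    · refine f1.subset fun v hv => ?_
      simp only [Function.mem_support, ne_eq, mul_eq_zero, not_or, Set.mem_ofPred_eq] at hv ⊢
      have := hv.2
      omega

end Pool.Agent.H36.SC
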