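import Pool.Agent.H36.SC.Val

/-! # MP_f2954d_ag, module M1, part a: purely transcendental extensions -/

namespace Pool.Agent.H36.SC

open _root_.SC

lemma isAlg_of_gen {F E V : Type} [Field F] [Field E] [Algebra F E] (y : V → E)
    (hg : IntermediateField.adjoin F (Set.range y) = ⊤) :
    Algebra.IsAlgebraic (Algebra.adjoin F (Set.range y)) E := by
  refine ⟨fun z => ?_⟩
  have hz : z ∈ IntermediateField.adjoin F (Set.range y) := by rw [hg]; trivial
  rw [IntermediateField.mem_adjoin_range_iff] at hz
  obtain ⟨p, q, rfl⟩ := hz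
  have h1 : ∀ p : MvPolynomial V F,
      IsAlgebraic (Algebra.adjoin F (Set.range y)) (MvPolynomial.aeval y p) := by
    intro p
    have h2 : MvPolynomial.aeval y p ∈ Algebra.adjoin F (Set.range y) := by
      rw [Algebra.adjoin_range_eq_range_aeval]
      exact ⟨p, rfl⟩
    exact isAlgebraic_algebraMap (⟨_, h2⟩ : Algebra.adjoin F (Set.range y))
  rw [div_eq_mul_inv]
  exact (h1 p).mul (h1 q).inv

lemma basis_of_gen {F E V : Type} [Field F] [Field E] [Algebra F E] {y : V → E}
    (hi : AlgebraicIndependent F y) (hg : IntermediateField.adjoin F (Set.range y) = ⊤) :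
    IsTranscendenceBasis F y :=
  hi.isTranscendenceBasis_iff_isAlgebraic.2 (isAlg_of_gen y hg)

lemma trdeg_of_gen {F E V : Type} [Field F] [Field E] [Algebra F E] {y : V → E}
    (hi : AlgebraicIndependent F y) (hg : IntermediateField.adjoin F (Set.range y) = ⊤) :
    Algebra.trdeg F E = Cardinal.mk V :=
  (basis_of_gen hi hg).cardinalMk_eq_trdeg.symm

section

variable {k K L V : Type} [Field k] [Field K] [Field L] [Algebra k K] [Algebra K L] [Algebra k L]
  [IsScalarTower k K L]

/-- the variables in the field they generate -/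
noncomputable def xin (k : Type) [Field k] [Algebra k L] (x : V → L) (i : V) : kU k x :=
  ⟨x i, IntermediateField.subset_adjoin k _ ⟨i, rfl⟩⟩

lemma xin_gen (x : V → L) : IntermediateField.adjoin k (Set.range (xin k x)) = ⊤ := by
  refine top_le_iff.1 fun c _ => ?_
  have hc := c.2
  rw [IntermediateField.mem_adjoin_range_iff] at hc ⊢
  obtain ⟨p, q, h⟩ := hc
  refine ⟨p, q, ?_⟩
  apply Subtype.ext
  have e : ∀ p : MvPolynomial V k, ((MvPolynomial.aeval (xin k x) p : kU k x) : L) =
      MvPolynomial.aeval x p := fun p =>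
    (MvPolynomial.aeval_algebraMap_apply L (xin k x) p).symm
  rw [h]
  show _ = ((MvPolynomial.aeval (xin k x) p : kU k x) : L) /
    ((MvPolynomial.aeval (xin k x) q : kU k x) : L)
  rw [e, e]

lemma xin_indep {x : V → L} (hi : AlgebraicIndependent k x) :
    AlgebraicIndependent k (xin k x) :=
  AlgebraicIndependent.of_comp (f := (kU k x).val) hi

lemma ess_of_gen [Finite V] [Algebra.EssFiniteType k K] {x : V → L}
    (hg : IntermediateField.adjoin K (Set.range x) = ⊤) :
    Algebra.EssFiniteType (kU k x) L := by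
  classical
  have h1 : Algebra.EssFiniteType K L := by
    rw [← IntermediateField.fg_top_iff]
    exact ⟨(Set.finite_range x).toFinset, by rw [Set.Finite.coe_toFinset]; exact hg⟩
  have h2 : Algebra.EssFiniteType k L := Algebra.EssFiniteType.comp k K L
  exact Algebra.EssFiniteType.of_comp k (kU k x) L

lemma trdeg_kU [Finite V] {x : V → L} (hi : AlgebraicIndependent K x)
    (hg : IntermediateField.adjoin K (Set.range x) = ⊤) (n : ℕ)
    (hn : Algebra.trdeg k K = (n : ℕ)) : Algebra.trdeg (kU k x) L = (n : ℕ) := by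
  have hik : AlgebraicIndependent k x :=
    hi.restrictScalars (FaithfulSMul.algebraMap_injective k K)
  have h1 := trdeg_add_eq k K (A := L)
  have h2 := trdeg_add_eq k (kU k x) (A := L)
  rw [trdeg_of_gen hi hg, hn] at h1
  rw [trdeg_of_gen (xin_indep hik) (xin_gen x)] at h2
  rw [← h1, add_comm] at h2
  have h3 : Cardinal.mk V < Cardinal.aleph0 := Cardinal.mk_lt_aleph0
  exact (Cardinal.add_right_inj_of_lt_aleph0 h3).1 h2

/-- polynomials in elements with independent residues have order zero -/
lemma ord_aeval {w : DV k L} {x : V → L} (hn : ∀ i, 0 ≤ w.ord (x i)) :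
    (∀ p : MvPolynomial V k, 0 ≤ w.ord (MvPolynomial.aeval x p)) ∧
    ∀ p : MvPolynomial V k, w.red (MvPolynomial.aeval x p) =
      MvPolynomial.aeval (fun i => w.red (x i)) p := by
  set x' : V → w.vs := fun i => ⟨x i, hn i⟩ with hx'
  have e : ∀ p : MvPolynomial V k, MvPolynomial.aeval x p =
      algebraMap w.vs L (MvPolynomial.aeval x' p) := fun p =>
    MvPolynomial.aeval_algebraMap_apply L x' p
  constructor
  · intro p
    rw [e]
    exact (MvPolynomial.aeval x' p).2
  · intro p
    rw [e]
    have h1 : w.red (algebraMap w.vs L (MvPolynomial.aeval x' p)) =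
        algebraMap w.vs w.Res (MvPolynomial.aeval x' p) := red_coe w _
    rw [h1]
    have h2 : (fun i => w.red (x i)) = fun i => algebraMap w.vs w.Res (x' i) := by
      ext i
      exact red_of w (hn i)
    rw [h2]
    exact (MvPolynomial.aeval_algebraMap_apply w.Res x' p).symm

lemma ord_kU {w : DV k L} {x : V → L} (hn : ∀ i, 0 ≤ w.ord (x i))
    (hr : AlgebraicIndependent k (fun i => w.red (x i))) (c : kU k x) : w.ord (c : L) = 0 := by
  obtain ⟨h1, h2⟩ := ord_aeval (k := k) hn
  have h3 : ∀ p : MvPolynomial V k, p ≠ 0 → MvPolynomial.aeval x p ≠ 0 ∧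
      w.ord (MvPolynomial.aeval x p) = 0 := by
    intro p hp
    refine ord_eq_zero_of_red w (h1 p) ?_
    rw [h2]
    intro h4
    exact hp (hr.eq_zero_of_aeval_eq_zero p h4)
  have hc := c.2
  rw [IntermediateField.mem_adjoin_range_iff] at hc
  obtain ⟨p, q, h⟩ := hc
  rw [h]
  by_cases hp : p = 0
  · simp [hp, w.ord_zero]
  by_cases hq : q = 0
  · simp [hq, w.ord_zero]
  rw [div_eq_mul_inv, w.ord_mul _ _ (h3 p hp).1 (inv_ne_zero (h3 q hq).1), w.ord_inv,
    (h3 p hp).2, (h3 q hq).2]
  rfl

/-- the valuation over the larger base field -/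
noncomputable def upw (w : DV k L) {x : V → L} (h : ∀ c : kU k x, w.ord (c : L) = 0) :
    DV (kU k x) L where
  ord := w.ord
  ord_zero := w.ord_zero
  ord_mul := w.ord_mul
  ord_add := w.ord_add
  ord_base := h
  ord_surj := w.ord_surj

end

end Pool.Agent.H36.SC
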