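import Pool.Agent.H36.SC.M1c

/-! # MP_f2954d_ag, module M1: the curve formula -/

namespace Pool.Agent.H36.SC

open _root_.SC

section

variable {k K L : Type} [Field k] [Field K] [Field L] [Algebra k K] [Algebra K L] [Algebra k L]
  [IsScalarTower k K L] {r : ℕ}

open IntermediateField.algebraAdjoinAdjoin in
/-- transcendence over the generated ring and over the generated field -/
lemma transc_iff {V : Type} (x : V → L) (t : L) :
    Transcendental (Algebra.adjoin k (Set.range x)) t ↔ Transcendental (kU k x) t := by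
  have h1 : IsScalarTower (Algebra.adjoin k (Set.range x)) (kU k x) L :=
    IsScalarTower.of_algebraMap_eq fun _ => rfl
  constructor
  · intro h
    exact h.extendScalars _
  · intro h
    exact h.restrictScalars (FaithfulSMul.algebraMap_injective _ _)

/-- the generic section of a curve -/
theorem curve (h2 : T_V2) (h2r : T_V2r) (h5 : T_V5) (h0 : T_G0) (h4 : T_G4) (h4t : T_G4t)
    (h4u : T_G4u) [CharZero k] [Algebra.EssFiniteType k K] (htr : Algebra.trdeg k K = 1)
    (s : Fin r → K) (x0 : Fin r) (hx0 : s x0 ≠ 0) (U : Var (fun _ : Unit => (⟨r, s⟩ : Sys K)) → L)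
    (hU : IsGen (fun _ : Unit => (⟨r, s⟩ : Sys K)) U) :
    (AlgebraicIndependent k U → (Module.finrank (kU k U) L : ℤ) =
      - ∑ᶠ v : DV k K, (v.deg : ℤ) * v.mo ⟨r, s⟩) ∧
    (¬ AlgebraicIndependent k U → ∑ᶠ v : DV k K, (v.deg : ℤ) * v.mo ⟨r, s⟩ = 0) := by
  classical
  let x : {i : Fin r // i ≠ x0} → L := fun i => U ⟨(), i.1⟩
  let t : L := U ⟨(), x0⟩
  have hrel : algebraMap K L (s x0) * t +
      ∑ i : {i : Fin r // i ≠ x0}, algebraMap K L (s i.1) * x i = 0 := by
    have h1 : ∑ i : Fin r, algebraMap K L (s i) * U ⟨(), i⟩ = 0 := hU.rel ()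
    rw [Fintype.sum_eq_add_sum_subtype_ne _ x0] at h1
    exact h1
  have hi : AlgebraicIndependent K x := by
    have h1 := hU.indep (fun _ => x0) (fun _ => hx0)
    let f : {i : Fin r // i ≠ x0} →
        {y : Var (fun _ : Unit => (⟨r, s⟩ : Sys K)) // y.2 ≠ x0} := fun i => ⟨⟨(), i.1⟩, i.2⟩
    have hf : Function.Injective f := by
      intro a b hab
      have h3 : (f a).1 = (f b).1 := congrArg Subtype.val hab
      exact Subtype.ext (eq_of_heq (Sigma.mk.inj_iff.1 h3).2)
    exact h1.comp f hf
  have hx0' : algebraMap K L (s x0) ≠ 0 := (map_ne_zero _).2 hx0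
  have ht : t = (algebraMap K L (s x0))⁻¹ *
      (- ∑ i : {i : Fin r // i ≠ x0}, algebraMap K L (s i.1) * x i) := by
    rw [← eq_neg_of_add_eq_zero_left hrel]
    field_simp
  have hUr : Set.range U = Set.range x ∪ {t} := by
    ext z
    constructor
    · rintro ⟨y, rfl⟩
      by_cases hy : y.2 = x0
      · right
        have : y = ⟨(), x0⟩ := Sigma.ext rfl (heq_of_eq hy)
        rw [this]
        rfl
      · left
        exact ⟨⟨y.2, hy⟩, rfl⟩
    · rintro (⟨i, rfl⟩ | h)
      · exact ⟨⟨(), i.1⟩, rfl⟩
      · exact ⟨⟨(), x0⟩, h.symm⟩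
  have hg : IntermediateField.adjoin K (Set.range x) = ⊤ := by
    rw [← top_le_iff, ← hU.gen, IntermediateField.adjoin_le_iff, hUr]
    rintro z (⟨i, rfl⟩ | rfl)
    · exact IntermediateField.subset_adjoin _ _ ⟨i, rfl⟩
    · rw [ht]
      refine mul_mem (inv_mem (IntermediateField.algebraMap_mem _ _)) (neg_mem (sum_mem ?_))
      intro i _
      exact mul_mem (IntermediateField.algebraMap_mem _ _)
        (IntermediateField.subset_adjoin _ _ ⟨i, rfl⟩)
  have hik : AlgebraicIndependent k x :=
    hi.restrictScalars (FaithfulSMul.algebraMap_injective k K)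
  have ess : Algebra.EssFiniteType (kU k x) L := ess_of_gen (k := k) (K := K) hg
  have trd : Algebra.trdeg (kU k x) L = 1 := by
    have := trdeg_kU (k := k) hi hg 1 (by rw [htr]; simp)
    simpa using this
  have cz : CharZero (kU k x) := charZero_of_injective_algebraMap (algebraMap k (kU k x)).injective
  choose w hw using fun v : DV k K => exists_w h4 h4t hi hg v
  have gv : ∀ v, GV v (w v) x := fun v => gv_of_gauss x0 (hw v)
  have hinj : Function.Injective w := by
    intro v v' e
    apply DV.ext
    funext z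
    rw [← (gv v).ordK, ← (gv v').ordK, e]
  have halg : ∀ v : DV k K, Algebra.IsAlgebraic k v.Res := by
    intro v
    have := v6a h5 k K htr v
    infer_instance
  have hP : ∀ P : DV (kU k x) L, P.ord t < 0 → P ∈ Set.range w := by
    intro P hP
    by_cases h1 : ∃ z : K, P.ord (algebraMap K L z) ≠ 0
    · obtain ⟨v, hv⟩ := dv_unique h2 h2r h4u halg hi hg P h1
      exact ⟨v, hv _ (hw v)⟩
    · push Not at h1
      exfalso
      have h3 : ∀ z : K, algebraMap K L z ∈ P.vs := fun z => (h1 z).ge
      have h4 : ∀ i, x i ∈ P.vs := fun i => (P.ord_base (xin k x i)).ge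
      have h5 : t ∈ P.vs := by
        rw [ht, ← map_inv₀]
        exact mul_mem (h3 _) (neg_mem (sum_mem fun i _ => mul_mem (h3 _) (h4 _)))
      have h6 : 0 ≤ P.ord t := h5
      omega
  have hord : ∀ v, max 0 (- (w v).ord t) = v.ord (s x0) - v.mo ⟨r, s⟩ := fun v =>
    ord_t (gv v) s hx0 t hrel
  have hdeg : ∀ v, (w v).deg = v.deg := fun v => deg_eq h0 (gv v)
  have hc := v6c h5 k K htr (s x0)
  have hopt : AlgebraicIndependent k U ↔ Transcendental (kU k x) t := by
    rw [← transc_iff, ← hik.option_iff_transcendental]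
    constructor
    · intro h
      let f : Option {i : Fin r // i ≠ x0} → Var (fun _ : Unit => (⟨r, s⟩ : Sys K)) :=
        fun o => ⟨(), o.elim x0 fun i => i.1⟩
      have hf : Function.Injective f := by
        intro a b hab
        have h3 := eq_of_heq (Sigma.mk.inj_iff.1 hab).2
        cases a with
        | none =>
          cases b with
          | none => rfl
          | some b => exact absurd h3.symm b.2
        | some a =>
          cases b with
          | none => exact absurd h3 a.2
          | some b => exact congrArg some (Subtype.ext h3)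
      have h3 := h.comp f hf
      have h4 : (fun o : Option {i : Fin r // i ≠ x0} => o.elim t x) = U ∘ f := by
        funext o
        cases o <;> rfl
      rw [h4]
      exact h3
    · intro h
      let f : Var (fun _ : Unit => (⟨r, s⟩ : Sys K)) → Option {i : Fin r // i ≠ x0} :=
        fun y => if hy : y.2 = x0 then none else some ⟨y.2, hy⟩
      have hf : Function.Injective f := by
        intro a b hab
        refine Sigma.ext (Subsingleton.elim _ _) (heq_of_eq ?_)
        by_cases ha : a.2 = x0
        · by_cases hb : b.2 = x0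
          · exact ha.trans hb.symm
          · simp only [f, dif_pos ha, dif_neg hb] at hab
            cases hab
        · by_cases hb : b.2 = x0
          · simp only [f, dif_neg ha, dif_pos hb] at hab
            cases hab
          · simp only [f, dif_neg ha, dif_neg hb] at hab
            exact congrArg Subtype.val (Option.some.inj hab)
      have h3 := h.comp f hf
      have h4 : U = (fun o : Option {i : Fin r // i ≠ x0} => o.elim t x) ∘ f := by
        funext y
        by_cases hy : y.2 = x0
        · have e : y = ⟨(), x0⟩ := Sigma.ext rfl (heq_of_eq hy)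
          subst e
          simp [f, t]
        · simp only [Function.comp, f, dif_neg hy]
          rfl
      rw [h4]
      exact h3
  rw [hopt]
  constructor
  · intro htt
    obtain ⟨f1, -, e1⟩ := h5 (kU k x) L t htt (fin_of_transc trd htt)
    have h6 : Module.finrank (kU k U) L =
        Module.finrank (IntermediateField.adjoin (kU k x) {t}) L := by
      have h7 : kU k U = (IntermediateField.adjoin (kU k x) {t}).restrictScalars k := by
        rw [IntermediateField.adjoin_adjoin_left, ← hUr]
      exact congrArg (fun E : IntermediateField k L => Module.finrank E L) h7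
    rw [h6, ← e1]
    have h7 : ∑ᶠ P : DV (kU k x) L, (P.deg : ℤ) * max 0 (- P.ord t) =
        ∑ᶠ v : DV k K, ((w v).deg : ℤ) * max 0 (- (w v).ord t) := by
      rw [← finsum_mem_range (f := fun P : DV (kU k x) L => (P.deg : ℤ) * max 0 (- P.ord t)) hinj]
      refine finsum_congr fun P => ?_
      by_cases hp : P ∈ Set.range w
      · simp [hp]
      · have h8 : ¬ P.ord t < 0 := fun h => hp (hP P h)
        have h9 : max 0 (- P.ord t) = 0 := by omega
        simp [hp, h9]
    rw [h7]
    simp only [hord, hdeg, mul_sub]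
    have fin1 : {v : DV k K | v.ord (s x0) ≠ 0}.Finite := v6b h5 k K htr (s x0)
    have fin2 : (w ⁻¹' {P : DV (kU k x) L | P.ord t < 0}).Finite := f1.preimage hinj.injOn
    rw [finsum_sub_distrib, hc, zero_sub]
    · refine fin1.subset fun v hv => ?_
      simp only [Function.mem_support, ne_eq, mul_eq_zero, not_or, Set.mem_ofPred_eq] at hv ⊢
      exact hv.2
    · refine (fin1.union fin2).subset fun v hv => ?_
      simp only [Function.mem_support, ne_eq, mul_eq_zero, not_or, Set.mem_ofPred_eq,
        Set.mem_union, Set.mem_preimage] at hv ⊢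
      have := hord v
      have := hv.2
      omega
  · intro htt
    rw [← hc]
    refine finsum_congr fun v => ?_
    have h6 : (w v).ord t = 0 := by
      refine ord_eq_zero_of_isAlgebraic (w v) ?_
      by_contra h
      exact htt h
    have := hord v
    rw [h6] at this
    have h7 : v.mo ⟨r, s⟩ = v.ord (s x0) := by omega
    rw [h7]

end

theorem m1 (h2 : T_V2) (h2r : T_V2r) (h5 : T_V5) (h0 : T_G0) (h1a : T_G1a) (hg2 : T_G2)
    (h4 : T_G4) (h4t : T_G4t) (h4u : T_G4u) : T_M1 := by
  intro k K _ _ _ _ _ htr s hs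
  obtain ⟨r, s⟩ := s
  obtain ⟨x0, hx0⟩ := hs
  have hnz : ∀ _ : Unit, (⟨r, s⟩ : Sys K).Nz := fun _ => ⟨x0, hx0⟩
  have hU := h1a K Unit (fun _ : Unit => (⟨r, s⟩ : Sys K)) hnz
  obtain ⟨a1, a2⟩ := hg2 k K Unit (Gen (fun _ : Unit => (⟨r, s⟩ : Sys K)))
    (fun _ : Unit => (⟨r, s⟩ : Sys K)) _ hnz hU
  obtain ⟨b1, b2⟩ := curve h2 h2r h5 h0 h4 h4t h4u htr s x0 hx0 _ hU
  by_cases h : AlgebraicIndependent k (genU (fun _ : Unit => (⟨r, s⟩ : Sys K)))
  · rw [a1 h, b1 h]
  · rw [a2 h, b2 h]
    simp

end Pool.Agent.H36.SC
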