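import Pool.Agent.H36.SC.M1a

/-! # MP_f2954d_ag, module M1, part b: Gauss extensions to purely transcendental extensions -/

namespace Pool.Agent.H36.SC

open _root_.SC

section

variable {k K L : Type} [Field k] [Field K] [Field L] [Algebra k K] [Algebra K L] [Algebra k L]
  [IsScalarTower k K L] {r : ℕ}

/-- the system with the single nonzero element `1` -/
@[reducible] def S1 (K : Type) [Field K] {r : ℕ} (x0 : Fin r) : Unit → Sys K :=
  fun _ => ⟨r, fun i => if i = x0 then 1 else 0⟩

/-- free variables, with zero added at the pivot -/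
def U1 {r : ℕ} (x0 : Fin r) (x : {i : Fin r // i ≠ x0} → L) : Var (S1 K x0) → L :=
  fun y => if h : y.2 = x0 then 0 else x ⟨y.2, h⟩

variable (x0 : Fin r)

lemma S1_nz (j : Unit) : (S1 K x0 j).Nz := ⟨x0, by simp⟩

lemma mo_S1 (v : DV k K) (j : Unit) : v.mo (S1 K x0 j) = 0 := by
  refine mo_eq v _ 0 ⟨x0, by simp, by simp [v.ord_one]⟩ ?_
  intro i hi
  have h : i = x0 := by
    by_contra h
    exact hi (if_neg h)
  show (0 : ℤ) ≤ v.ord (if i = x0 then 1 else 0)
  rw [if_pos h, v.ord_one]

lemma isGen1 {x : {i : Fin r // i ≠ x0} → L} (hi : AlgebraicIndependent K x)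
    (hg : IntermediateField.adjoin K (Set.range x) = ⊤) : IsGen (S1 K x0) (U1 x0 x) where
  rel := by
    intro j
    rw [Finset.sum_eq_single x0]
    · simp [U1]
    · intro b _ hb
      simp [hb]
    · simp
  indep := by
    intro i0 h0
    have h1 : i0 () = x0 := by
      by_contra h
      exact h0 () (if_neg h)
    have h2 : ∀ j, i0 j = x0 := fun _ => h1
    let f : {y : Var (S1 K x0) // y.2 ≠ i0 y.1} → {i : Fin r // i ≠ x0} :=
      fun y => ⟨y.1.2, fun h => y.2 (h.trans (h2 _).symm)⟩
    have hf : Function.Injective f := by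
      intro a b hab
      apply Subtype.ext
      have : a.1.2 = b.1.2 := congrArg Subtype.val hab
      exact Sigma.ext (Subsingleton.elim _ _) (heq_of_eq this)
    have h3 := hi.comp f hf
    convert h3 using 2 with y
    exact dif_neg (f y).2
  gen := by
    rw [← top_le_iff, ← hg]
    apply IntermediateField.adjoin.mono
    rintro _ ⟨i, rfl⟩
    exact ⟨⟨(), i.1⟩, dif_neg i.2⟩

/-- Gauss extension to a purely transcendental extension -/
structure GV {k k' K L V : Type} [Field k] [Field k'] [Field K] [Field L] [Algebra k K]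
    [Algebra K L] [Algebra k' L] (v : DV k K) (w : DV k' L) (x : V → L) : Prop where
  ordK : ∀ z : K, w.ord (algebraMap K L z) = v.ord z
  nonneg : ∀ i, 0 ≤ w.ord (x i)
  res : ∃ φ : v.Res →+* w.Res, ResCompat v w φ ∧
    letI : Algebra v.Res w.Res := φ.toAlgebra
    AlgebraicIndependent v.Res (fun i => w.red (x i)) ∧
    IntermediateField.adjoin v.Res (Set.range fun i => w.red (x i)) = ⊤

omit [Algebra k L] [IsScalarTower k K L] in
lemma gv_of_gauss {k' : Type} [Field k'] [Algebra k' L] {v : DV k K} {w : DV k' L}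
    {x : {i : Fin r // i ≠ x0} → L} (h : Gauss v w (S1 K x0) (U1 x0 x)) : GV v w x where
  ordK := h.ordK
  nonneg := by
    intro i
    have := h.nonneg ⟨(), i.1⟩
    rw [U1, dif_neg i.2] at this
    exact this
  res := by
    obtain ⟨φ, hφ, hg⟩ := h.gen
    refine ⟨φ, hφ, ?_⟩
    let : Algebra v.Res w.Res := φ.toAlgebra
    have h1 : (v.res (S1 K x0 ())).s x0 ≠ 0 := by
      show v.red ((if x0 = x0 then 1 else 0) * v.unif ^ (- v.mo (S1 K x0 ()))) ≠ 0
      rw [if_pos rfl, mo_S1, neg_zero, zpow_zero, one_mul, red_one]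
      exact one_ne_zero
    constructor
    · have h2 := hg.indep (fun _ => x0) (fun _ => h1)
      let f : {i : Fin r // i ≠ x0} → {y : Var (fun j => v.res (S1 K x0 j)) // y.2 ≠ x0} :=
        fun i => ⟨⟨(), i.1⟩, i.2⟩
      have hf : Function.Injective f := by
        intro a b hab
        have h3 : (f a).1 = (f b).1 := congrArg Subtype.val hab
        apply Subtype.ext
        have := (Sigma.mk.inj_iff.1 h3).2
        exact eq_of_heq this
      have h3 := h2.comp f hf
      have h4 : (fun i => w.red (x i)) = (fun y : {y : Var (fun j => v.res (S1 K x0 j)) //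
          y.2 ≠ x0} => w.red (U1 (K := K) x0 x y.1)) ∘ f := by
        funext i
        show w.red (x i) = w.red (U1 x0 x ⟨(), i.1⟩)
        rw [U1, dif_neg i.2]
      rw [h4]
      exact h3
    · have h2 := hg.gen
      rw [← top_le_iff, ← h2, IntermediateField.adjoin_le_iff]
      rintro _ ⟨y, rfl⟩
      show w.red (U1 x0 x y) ∈ _
      by_cases hy : y.2 = x0
      · rw [U1, dif_pos hy, red_zero]
        exact zero_mem _
      · rw [U1, dif_neg hy]
        exact IntermediateField.subset_adjoin _ _ ⟨⟨y.2, hy⟩, rfl⟩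

variable {x0}

lemma exists_w (h4 : T_G4) (h4t : T_G4t) {x : {i : Fin r // i ≠ x0} → L}
    (hi : AlgebraicIndependent K x) (hg : IntermediateField.adjoin K (Set.range x) = ⊤)
    (v : DV k K) : ∃ w : DV (kU k x) L, Gauss v w (S1 K x0) (U1 x0 x) := by
  obtain ⟨w, hw⟩ := h4 k K L Unit v (S1 K x0) (U1 x0 x) (S1_nz x0) (isGen1 x0 hi hg)
  have gv := gv_of_gauss x0 hw
  obtain ⟨φ, hφ, h1, -⟩ := gv.res
  have hk : AlgebraicIndependent k (fun i => w.red (x i)) := by
    let : Algebra v.Res w.Res := φ.toAlgebra
    have : IsScalarTower k v.Res w.Res := by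
      refine IsScalarTower.of_algebraMap_eq fun c => ?_
      show _ = φ (algebraMap k v.Res c)
      rw [← red_algebraMap, ← red_algebraMap, hφ _ (v.ord_base c).ge,
        ← IsScalarTower.algebraMap_apply]
    exact h1.restrictScalars (FaithfulSMul.algebraMap_injective k v.Res)
  exact ⟨upw w (ord_kU gv.nonneg hk), h4t k K k (kU k x) L Unit v w _ _ _ rfl hw⟩

lemma dv_unique (h2 : T_V2) (h2r : T_V2r) (h4u : T_G4u)
    (halg : ∀ v : DV k K, Algebra.IsAlgebraic k v.Res)
    {x : {i : Fin r // i ≠ x0} → L}
    (hi : AlgebraicIndependent K x) (hg : IntermediateField.adjoin K (Set.range x) = ⊤)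
    (P : DV (kU k x) L) (hP : ∃ z : K, P.ord (algebraMap K L z) ≠ 0) :
    ∃ v : DV k K, ∀ w : DV (kU k x) L, Gauss v w (S1 K x0) (U1 x0 x) → w = P := by
  obtain ⟨v, e, he⟩ := h2 k K (kU k x) L P hP
  obtain ⟨φ, hφ⟩ := h2r k K (kU k x) L v P e he
  refine ⟨v, fun w hw => ?_⟩
  have hx : ∀ i, P.red (x i) = algebraMap (kU k x) P.Res (xin k x i) := fun i =>
    red_algebraMap P (xin k x i)
  have hx0 : ∀ i, P.ord (x i) = 0 := fun i => P.ord_base (xin k x i)
  have hik : AlgebraicIndependent k x :=
    hi.restrictScalars (FaithfulSMul.algebraMap_injective k K)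
  have h3 : P.ord = w.ord := by
    refine h4u k K (kU k x) (kU k x) L Unit v w P (S1 K x0) (U1 x0 x) e φ (fun _ => x0) (S1_nz x0)
      (isGen1 x0 hi hg) hw he hφ ?_ ?_ ?_
    · intro y
      rw [U1]
      split_ifs with h
      · rw [P.ord_zero]
      · rw [hx0]
    · intro j
      refine ⟨by simp, ?_⟩
      rw [mo_S1]
      simp [v.ord_one]
    · let : Algebra v.Res P.Res := φ.toAlgebra
      let : Algebra k P.Res :=
        ((algebraMap (kU k x) P.Res).comp (algebraMap k (kU k x))).toAlgebra
      have : IsScalarTower k (kU k x) P.Res := IsScalarTower.of_algebraMap_eq fun _ => rfl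
      have : IsScalarTower k v.Res P.Res := by
        refine IsScalarTower.of_algebraMap_eq fun c => ?_
        show algebraMap (kU k x) P.Res (algebraMap k (kU k x) c) = φ (algebraMap k v.Res c)
        rw [← red_algebraMap, ← red_algebraMap, hφ _ (v.ord_base c).ge,
          ← IsScalarTower.algebraMap_apply, ← IsScalarTower.algebraMap_apply]
      have h5 : AlgebraicIndependent k (fun i => algebraMap (kU k x) P.Res (xin k x i)) :=
        (xin_indep hik).map' (f := IsScalarTower.toAlgHom k (kU k x) P.Res)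
          (FaithfulSMul.algebraMap_injective (kU k x) P.Res)
      have := halg v
      have h6 := h5.extendScalars v.Res
      let f : {y : Var (S1 K x0) // y.2 ≠ x0} → {i : Fin r // i ≠ x0} := fun y => ⟨y.1.2, y.2⟩
      have hf : Function.Injective f := by
        intro a b hab
        apply Subtype.ext
        have : a.1.2 = b.1.2 := congrArg Subtype.val hab
        exact Sigma.ext (Subsingleton.elim _ _) (heq_of_eq this)
      have h7 := h6.comp f hf
      convert h7 using 2 with y
      show P.red (U1 x0 x y.1) = _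
      rw [U1, dif_neg y.2, hx]
      rfl
  exact DV.ext h3.symm

end

end Pool.Agent.H36.SC
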