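import Pool.Agent.H36.SC.M1b

/-! # MP_f2954d_ag, module M1, part c: degrees and orders of linear forms -/

namespace Pool.Agent.H36.SC

open _root_.SC

section

variable {k K L V : Type} [Field k] [Field K] [Field L] [Algebra k K] [Algebra K L] [Algebra k L]
  [IsScalarTower k K L]

lemma deg_eq (h0 : T_G0) [Finite V] {x : V → L} {v : DV k K} {w : DV (kU k x) L}
    (h : GV v w x) : w.deg = v.deg := by
  obtain ⟨φ, hφ, hi, hg⟩ := h.res
  let : Algebra v.Res w.Res := φ.toAlgebra
  let : Algebra k w.Res := ((algebraMap (kU k x) w.Res).comp (algebraMap k (kU k x))).toAlgebra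
  have t1 : IsScalarTower k (kU k x) w.Res := IsScalarTower.of_algebraMap_eq fun _ => rfl
  have t2 : IsScalarTower k v.Res w.Res := by
    refine IsScalarTower.of_algebraMap_eq fun c => ?_
    show algebraMap (kU k x) w.Res (algebraMap k (kU k x) c) = φ (algebraMap k v.Res c)
    rw [← red_algebraMap, ← red_algebraMap, hφ _ (v.ord_base c).ge,
      ← IsScalarTower.algebraMap_apply, ← IsScalarTower.algebraMap_apply]
  have h1 := h0 k v.Res w.Res V (fun i => w.red (x i)) hi hg
  show Module.finrank (kU k x) w.Res = Module.finrank k v.Res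
  rw [← h1]
  let σ : kU k x →ₐ[k] w.Res := IsScalarTower.toAlgHom k (kU k x) w.Res
  have h2 : σ.fieldRange = kU k (fun i => w.red (x i)) := by
    rw [AlgHom.fieldRange_eq_map, ← xin_gen, IntermediateField.adjoin_map, ← Set.range_comp]
    congr 2
    funext i
    exact (red_algebraMap w (xin k x i)).symm
  refine Algebra.finrank_eq_of_equiv_equiv
    ((AlgEquiv.ofInjectiveField σ).trans (IntermediateField.equivOfEq h2)).toRingEquiv
    (RingEquiv.refl w.Res) ?_
  ext c
  rfl

omit [Algebra k L] [IsScalarTower k K L] in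
lemma ord_lin [Fintype V] {x : V → L} {v : DV k K} {k' : Type} [Field k'] [Algebra k' L]
    {w : DV k' L} (h : GV v w x) (b : V → K) (m : ℤ)
    (h1 : ∀ i, b i ≠ 0 → m ≤ v.ord (b i)) (h2 : ∃ i, b i ≠ 0 ∧ v.ord (b i) = m) :
    ∑ i, algebraMap K L (b i) * x i ≠ 0 ∧ w.ord (∑ i, algebraMap K L (b i) * x i) = m := by
  obtain ⟨φ, hφ, hi, -⟩ := h.res
  let : Algebra v.Res w.Res := φ.toAlgebra
  obtain ⟨hu0, hu1⟩ := unif_spec v
  set c : K := v.unif ^ (-m) with hc
  have hpow : ∀ n : ℕ, v.ord (v.unif ^ n) = n := by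
    intro n
    induction n with
    | zero => simp [v.ord_one]
    | succ n ih =>
      rw [pow_succ, v.ord_mul _ _ (pow_ne_zero n hu0) hu0, ih, hu1]
      push_cast
      ring
  have hz : ∀ z : ℤ, v.ord (v.unif ^ z) = z := by
    intro z
    rcases Int.eq_nat_or_neg z with ⟨n, rfl | rfl⟩
    · rw [zpow_natCast, hpow]
    · rw [zpow_neg, zpow_natCast, v.ord_inv, hpow]
  have hc0 : c ≠ 0 := zpow_ne_zero _ hu0
  have hcm : v.ord c = -m := hz _
  have h3 : ∀ i, 0 ≤ v.ord (b i * c) := by
    intro i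
    by_cases hb : b i = 0
    · rw [hb, zero_mul, v.ord_zero]
    · rw [v.ord_mul _ _ hb hc0, hcm]
      have := h1 i hb
      omega
  have h4 : ∀ i, 0 ≤ w.ord (algebraMap K L (b i * c) * x i) := by
    intro i
    refine ord_mul_nonneg w ?_ (h.nonneg i)
    rw [h.ordK]
    exact h3 i
  have h5 : ∑ i, algebraMap K L (b i * c) * x i =
      (∑ i, algebraMap K L (b i) * x i) * algebraMap K L c := by
    rw [Finset.sum_mul]
    refine Finset.sum_congr rfl fun i _ => ?_
    rw [map_mul]
    ring
  obtain ⟨h6, h7⟩ := red_sum w Finset.univ (fun i => algebraMap K L (b i * c) * x i)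
    fun i _ => h4 i
  have h8 : w.red (∑ i, algebraMap K L (b i * c) * x i) ≠ 0 := by
    rw [h6]
    have h9 : ∀ i, w.red (algebraMap K L (b i * c) * x i) =
        v.red (b i * c) • w.red (x i) := by
      intro i
      rw [red_mul w (by rw [h.ordK]; exact h3 i) (h.nonneg i), Algebra.smul_def,
        ← hφ _ (h3 i)]
      rfl
    simp only [h9]
    intro h10
    obtain ⟨i, hb, hm⟩ := h2
    have h11 := Fintype.linearIndependent_iff.1 hi.linearIndependent _ h10 i
    refine red_ne_zero v (mul_ne_zero hb hc0) ?_ h11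
    rw [v.ord_mul _ _ hb hc0, hm, hcm]
    ring
  obtain ⟨h12, h13⟩ := ord_eq_zero_of_red w h7 h8
  rw [h5] at h12 h13
  rw [w.ord_mul _ _ (left_ne_zero_of_mul h12) (right_ne_zero_of_mul h12), h.ordK, hcm] at h13
  exact ⟨left_ne_zero_of_mul h12, by omega⟩

end

section

variable {k K L : Type} [Field k] [Field K] [Field L] [Algebra k K] [Algebra K L] {r : ℕ}

/-- the negative part of the order of the dependent variable -/
lemma ord_t {k' : Type} [Field k'] [Algebra k' L] {x0 : Fin r} {x : {i : Fin r // i ≠ x0} → L}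
    {v : DV k K} {w : DV k' L} (h : GV v w x) (s : Fin r → K) (hs : s x0 ≠ 0) (t : L)
    (ht : algebraMap K L (s x0) * t + ∑ i : {i : Fin r // i ≠ x0}, algebraMap K L (s i.1) * x i
      = 0) :
    max 0 (- w.ord t) = v.ord (s x0) - v.mo ⟨r, s⟩ := by
  have hS : (⟨r, s⟩ : Sys K).Nz := ⟨x0, hs⟩
  obtain ⟨⟨i1, hi1, hi1'⟩, hmin⟩ := mo_spec v ⟨r, s⟩ hS
  have hmin0 := hmin x0 hs
  by_cases hA : ∃ i : {i : Fin r // i ≠ x0}, s i.1 ≠ 0
  · classical
    let A : Sys K := ⟨r, fun i => if i = x0 then 0 else s i⟩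
    have hA1 : A.Nz := by
      obtain ⟨i, hi⟩ := hA
      refine ⟨i.1, ?_⟩
      show (if i.1 = x0 then 0 else s i.1) ≠ 0
      rw [if_neg i.2]
      exact hi
    obtain ⟨⟨i2, hi2, hi2'⟩, hmin2⟩ := mo_spec v A hA1
    have e2 : i2 ≠ x0 := by
      intro e
      exact hi2 (if_pos e)
    have e3 : A.s i2 = s i2 := if_neg e2
    rw [e3] at hi2 hi2'
    obtain ⟨h2, h1⟩ := ord_lin h (fun i => s i.1) (v.mo A) (by
      intro i hi
      have := hmin2 i.1
      have e4 : A.s i.1 = s i.1 := if_neg i.2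
      rw [e4] at this
      exact this hi) ⟨⟨i2, e2⟩, hi2, hi2'⟩
    have h3 : t ≠ 0 := by
      rintro rfl
      rw [mul_zero, zero_add] at ht
      exact h2 ht
    have h4 : w.ord (∑ i : {i : Fin r // i ≠ x0}, algebraMap K L (s i.1) * x i) =
        v.ord (s x0) + w.ord t := by
      rw [← h.ordK (s x0), ← w.ord_mul _ _ ((map_ne_zero _).2 hs) h3,
        eq_neg_of_add_eq_zero_left ht, w.ord_neg]
    rw [h1] at h4
    have h5 : v.mo ⟨r, s⟩ = min (v.ord (s x0)) (v.mo A) := by
      apply le_antisymm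
      · refine le_min hmin0 ?_
        rw [← hi2']
        exact hmin i2 hi2
      · rw [← hi1']
        by_cases e5 : i1 = x0
        · rw [e5]
          exact min_le_left _ _
        · have := hmin2 i1
          have e6 : A.s i1 = s i1 := if_neg e5
          rw [e6] at this
          exact (min_le_right _ _).trans (this hi1)
    rw [h5]
    omega
  · push Not at hA
    have h1 : algebraMap K L (s x0) * t = 0 := by
      rw [Finset.sum_eq_zero (fun i _ => by rw [hA i]; simp), add_zero] at ht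
      exact ht
    have h2 : t = 0 := by
      rcases mul_eq_zero.1 h1 with h | h
      · exact absurd ((map_eq_zero _).1 h) hs
      · exact h
    have h3 : i1 = x0 := by
      by_contra h
      exact hi1 (hA ⟨i1, h⟩)
    rw [h2, w.ord_zero, ← hi1', h3]
    simp

end

end Pool.Agent.H36.SC
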