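import Pool.Agent.H36.SC.V6

/-! # MP_f2954d_ag: reductions and minimal orders -/

namespace Pool.Agent.H36.SC

open _root_.SC

section

variable {k K : Type} [Field k] [Field K] [Algebra k K] (v : DV k K)

lemma red_of {x : K} (h : 0 ≤ v.ord x) : v.red x = IsLocalRing.residue v.vs ⟨x, h⟩ := dif_pos h

lemma red_coe (y : v.vs) : v.red (y : K) = IsLocalRing.residue v.vs y := red_of v y.2

lemma red_add {x y : K} (hx : 0 ≤ v.ord x) (hy : 0 ≤ v.ord y) :
    v.red (x + y) = v.red x + v.red y := by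
  rw [red_of v hx, red_of v hy, ← map_add, ← red_coe]
  rfl

lemma red_mul {x y : K} (hx : 0 ≤ v.ord x) (hy : 0 ≤ v.ord y) :
    v.red (x * y) = v.red x * v.red y := by
  rw [red_of v hx, red_of v hy, ← map_mul, ← red_coe]
  rfl

lemma ord_mul_nonneg {x y : K} (hx : 0 ≤ v.ord x) (hy : 0 ≤ v.ord y) : 0 ≤ v.ord (x * y) :=
  v.vs.mul_mem x y hx hy

lemma red_zero : v.red 0 = 0 := by
  have := red_coe v (0 : v.vs)
  rw [map_zero] at this
  exact this

lemma red_one : v.red 1 = 1 := by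
  have := red_coe v (1 : v.vs)
  rw [map_one] at this
  exact this

lemma red_sum {ι : Type} (s : Finset ι) (f : ι → K) (hf : ∀ i ∈ s, 0 ≤ v.ord (f i)) :
    v.red (∑ i ∈ s, f i) = ∑ i ∈ s, v.red (f i) ∧ 0 ≤ v.ord (∑ i ∈ s, f i) := by
  classical
  induction s using Finset.induction_on with
  | empty => simp [red_zero, v.ord_zero]
  | insert a s ha ih =>
    obtain ⟨h1, h2⟩ := ih fun i hi => hf i (Finset.mem_insert_of_mem hi)
    have h3 := hf a (Finset.mem_insert_self a s)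
    rw [Finset.sum_insert ha, Finset.sum_insert ha, red_add v h3 h2, h1]
    exact ⟨rfl, v.vs.add_mem _ _ h3 h2⟩

lemma red_algebraMap (c : k) : v.red (algebraMap k K c) = algebraMap k v.Res c := by
  have := red_coe v (algebraMap k v.vs c)
  exact this

lemma red_ne_zero {x : K} (hx : x ≠ 0) (h : v.ord x = 0) : v.red x ≠ 0 := by
  have h1 : 0 ≤ v.ord x := h.ge
  have h2 : 0 ≤ v.ord x⁻¹ := by rw [v.ord_inv]; omega
  intro h3
  have h4 := red_mul v h1 h2
  rw [mul_inv_cancel₀ hx, red_one, h3, zero_mul] at h4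
  exact one_ne_zero h4

lemma ord_eq_zero_of_red {x : K} (h : 0 ≤ v.ord x) (hr : v.red x ≠ 0) : x ≠ 0 ∧ v.ord x = 0 := by
  have hx : x ≠ 0 := by
    rintro rfl
    exact hr (red_zero v)
  refine ⟨hx, ?_⟩
  by_contra h1
  apply hr
  rw [red_of v h, IsLocalRing.residue_eq_zero_iff, IsLocalRing.mem_maximalIdeal, mem_nonunits_iff]
  intro hu
  obtain ⟨y, hy⟩ := hu.exists_right_inv
  have h2 : x * (y : K) = 1 := congrArg Subtype.val hy
  have hy0 : (y : K) ≠ 0 := by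
    intro h3
    rw [h3, mul_zero] at h2
    exact zero_ne_one h2
  have h3 := v.ord_mul x y hx hy0
  rw [h2, v.ord_one] at h3
  have h4 : 0 ≤ v.ord (y : K) := y.2
  omega

/-! ### minimal orders -/

lemma mo_spec (S : Sys K) (hS : S.Nz) :
    (∃ i, S.s i ≠ 0 ∧ v.ord (S.s i) = v.mo S) ∧ ∀ i, S.s i ≠ 0 → v.mo S ≤ v.ord (S.s i) := by
  have hfin : {z | ∃ i, S.s i ≠ 0 ∧ v.ord (S.s i) = z}.Finite := by
    refine (Set.finite_range fun i => v.ord (S.s i)).subset ?_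
    rintro z ⟨i, -, rfl⟩
    exact ⟨i, rfl⟩
  have hne : {z | ∃ i, S.s i ≠ 0 ∧ v.ord (S.s i) = z}.Nonempty := by
    obtain ⟨i, hi⟩ := hS
    exact ⟨_, i, hi, rfl⟩
  constructor
  · exact Int.csInf_mem hne hfin.bddBelow
  · intro i hi
    exact csInf_le hfin.bddBelow ⟨i, hi, rfl⟩

/-- characterisation of the minimal order -/
lemma mo_eq (S : Sys K) (z : ℤ) (h1 : ∃ i, S.s i ≠ 0 ∧ v.ord (S.s i) = z)
    (h2 : ∀ i, S.s i ≠ 0 → z ≤ v.ord (S.s i)) : v.mo S = z := by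
  obtain ⟨i, hi, rfl⟩ := h1
  obtain ⟨⟨j, hj, hj'⟩, h3⟩ := mo_spec v S ⟨i, hi⟩
  exact le_antisymm (h3 i hi) (hj' ▸ h2 j hj)

end

end Pool.Agent.H36.SC
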